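import Mathlib

/-!
Definitions for the problem on `k`-nice families of oriented graphs: oriented graphs,
tournaments, oriented forests, good arc colourings, the numbers `p_k` and `q_k`, and the family
formed by the directed path on four vertices and the two triangles.
-/

namespace Pool.Agent.Lib.MP_abf784_co

/-- An oriented graph on the vertex set `V`: arcs are ordered pairs, no pair is joined in both
directions (in particular there are no loops). -/
structure OGraph (V : Type) where
  /-- `arc u v` : there is an arc from `u` to `v`. -/
  arc : V → V → Prop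
  /-- no directed cycles of length two and no loops -/
  asymm : ∀ u v, arc u v → ¬ arc v u

/-- The underlying simple graph of an oriented graph. -/
def OGraph.under {V : Type} (D : OGraph V) : SimpleGraph V where
  Adj u v := D.arc u v ∨ D.arc v u
  symm := ⟨fun _ _ h => h.symm⟩
  loopless := ⟨fun u h => h.elim (fun h => D.asymm u u h h) (fun h => D.asymm u u h h)⟩

/-- A tournament: any two distinct vertices are joined by an arc. -/
def OGraph.IsTournament {V : Type} (D : OGraph V) : Prop :=
  ∀ u v, u ≠ v → D.arc u v ∨ D.arc v u

/-- An oriented forest: the underlying graph has no cycle. -/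
def OGraph.IsForest {V : Type} (D : OGraph V) : Prop := D.under.IsAcyclic

/-- Finite oriented graphs (with vertices named `0, …, n-1`). -/
abbrev FinOGraph := Σ n : ℕ, OGraph (Fin n)

/-- The arcs of `D` that have colour `j` contain a (not necessarily induced) copy of `F`. -/
def HasCopy {V W : Type} (F : OGraph W) (D : OGraph V) {k : ℕ} (c : V → V → Fin k)
    (j : Fin k) : Prop :=
  ∃ φ : W → V, Function.Injective φ ∧
    ∀ a b, F.arc a b → D.arc (φ a) (φ b) ∧ c (φ a) (φ b) = j

/-- `c` is an `𝓕`-good colouring of the arcs of `D` with `k` colours: no colour class contains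
a copy of a member of `𝓕`.  (Only the values of `c` on arcs matter.) -/
def IsGood (𝓕 : Set FinOGraph) {V : Type} (D : OGraph V) {k : ℕ} (c : V → V → Fin k) : Prop :=
  ∀ j : Fin k, ∀ F ∈ 𝓕, ¬ HasCopy F.2 D c j

/-- `p_k(𝓕)`: the largest number of vertices of a finite tournament that has an `𝓕`-good
`k`-colouring of its arcs (a supremum in `ℕ∞`). -/
noncomputable def pNum (𝓕 : Set FinOGraph) (k : ℕ) : ℕ∞ :=
  sSup {x | ∃ (V : Type) (_ : Finite V) (D : OGraph V),
    D.IsTournament ∧ (∃ c : V → V → Fin k, IsGood 𝓕 D c) ∧ x = (Nat.card V : ℕ∞)}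

/-- `q_k(𝓕)`: the largest chromatic number of a finite oriented graph that has an `𝓕`-good
`k`-colouring of its arcs (a supremum in `ℕ∞`). -/
noncomputable def qNum (𝓕 : Set FinOGraph) (k : ℕ) : ℕ∞ :=
  sSup {x | ∃ (V : Type) (_ : Finite V) (D : OGraph V),
    (∃ c : V → V → Fin k, IsGood 𝓕 D c) ∧ x = D.under.chromaticNumber}

/-- The directed path `0 → 1 → 2 → 3` on four vertices. -/
def dirPath4 : OGraph (Fin 4) where
  arc a b := b.val = a.val + 1
  asymm := by intro u v h h'; omega

/-- The transitive triangle: arcs `a → b` for `a < b` in `{0, 1, 2}`. -/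
def transTriangle : OGraph (Fin 3) where
  arc a b := a < b
  asymm := by intro u v h h'; exact lt_asymm h h'

/-- The cyclic triangle `0 → 1 → 2 → 0`. -/
def cycTriangle : OGraph (Fin 3) where
  arc a b := b = a + 1
  asymm := by decide

/-- The family of the directed path on four vertices and both triangles. -/
def fam : Set FinOGraph := {⟨4, dirPath4⟩, ⟨3, transTriangle⟩, ⟨3, cycTriangle⟩}

end Pool.Agent.Lib.MP_abf784_co
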