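import Pool.Agent.Lib.MP_abf784_co.Defs

/-!
Proof that the family of the directed path on four vertices and both triangles is `k`-nice for no
`k ≥ 1`.  The upper bound for the chromatic number comes from level functions of the colour
classes; the lower bound from the tensor product of a complete graph on `3 ^ k` vertices with a
shift graph of huge chromatic number, which has no triangle.
-/

namespace Pool.Agent.Lib.MP_abf784_co

/-! ### Levels of a colour class -/

section Levels

variable {V : Type} {D : OGraph V} {k : ℕ} {c : V → V → Fin k}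

/-- arcs of colour `j` -/
def Cls (D : OGraph V) (c : V → V → Fin k) (j : Fin k) (a b : V) : Prop :=
  D.arc a b ∧ c a b = j

lemma no_walk3 (h : IsGood fam D c) (j : Fin k) {v u w x : V}
    (h1 : Cls D c j v u) (h2 : Cls D c j u w) (h3 : Cls D c j w x) : False := by
  have hvu : v ≠ u := fun e => D.asymm v u h1.1 (by rw [e] at h1 ⊢; exact h1.1)
  have huw : u ≠ w := fun e => D.asymm u w h2.1 (by rw [e] at h2 ⊢; exact h2.1)
  have hwx : w ≠ x := fun e => D.asymm w x h3.1 (by rw [e] at h3 ⊢; exact h3.1)
  have hvw : v ≠ w := fun e => D.asymm v u h1.1 (by rw [e]; exact h2.1)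
  have hux : u ≠ x := fun e => D.asymm u w h2.1 (by rw [e]; exact h3.1)
  by_cases hvx : v = x
  · subst hvx
    refine h j ⟨3, cycTriangle⟩ (by simp [fam]) ⟨![v, u, w], ?_, ?_⟩
    · intro a b hab
      fin_cases a <;> fin_cases b <;> simp_all
    · intro a b hab
      have hab' : b = a + 1 := hab
      subst hab'
      fin_cases a
      · exact h1
      · exact h2
      · exact h3
  · refine h j ⟨4, dirPath4⟩ (by simp [fam]) ⟨![v, u, w, x], ?_, ?_⟩
    · intro a b hab
      fin_cases a <;> fin_cases b <;> simp_all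
    · intro a b hab
      have hab' : b.val = a.val + 1 := hab
      fin_cases a <;> fin_cases b <;> simp at hab' <;> first | exact h1 | exact h2 | exact h3

open Classical in
/-- the level of a vertex in colour class `j` -/
noncomputable def level (D : OGraph V) (c : V → V → Fin k) (j : Fin k) (v : V) : Fin 3 :=
  if ∃ u w, Cls D c j v u ∧ Cls D c j u w then 2
  else if ∃ u, Cls D c j v u then 1 else 0

lemma level_lt (h : IsGood fam D c) (j : Fin k) {v u : V} (h1 : Cls D c j v u) :
    level D c j u < level D c j v := by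
  unfold level
  have hv : ∃ u, Cls D c j v u := ⟨u, h1⟩
  by_cases hu2 : ∃ w x, Cls D c j u w ∧ Cls D c j w x
  · obtain ⟨w, x, hw, hx⟩ := hu2
    exact (no_walk3 h j h1 hw hx).elim
  · rw [if_neg hu2]
    by_cases hu1 : ∃ w, Cls D c j u w
    · obtain ⟨w, hw⟩ := hu1
      have hv2 : ∃ u w, Cls D c j v u ∧ Cls D c j u w := ⟨u, w, h1, hw⟩
      rw [if_pos hv2, if_pos ⟨w, hw⟩]
      decide
    · rw [if_neg hu1]
      split_ifs <;> decide

/-- the product colouring -/
noncomputable def lev (D : OGraph V) (c : V → V → Fin k) (v : V) : Fin k → Fin 3 :=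
  fun j => level D c j v

lemma lev_ne (h : IsGood fam D c) {v u : V} (h1 : D.under.Adj v u) :
    lev D c v ≠ lev D c u := by
  intro e
  rcases h1 with h1 | h1
  · have := level_lt h (c v u) (v := v) (u := u) ⟨h1, rfl⟩
    have e' := congrFun e (c v u)
    simp only [lev] at e'
    rw [e'] at this
    exact lt_irrefl _ this
  · have := level_lt h (c u v) (v := u) (u := v) ⟨h1, rfl⟩
    have e' := congrFun e (c u v)
    simp only [lev] at e'
    rw [e'] at this
    exact lt_irrefl _ this

lemma colorable (h : IsGood fam D c) : D.under.Colorable (3 ^ k) := by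
  have C : D.under.Coloring (Fin k → Fin 3) :=
    SimpleGraph.Coloring.mk (lev D c) (fun {v u} hvu => lev_ne h hvu)
  have := C.colorable
  simpa using this

/-- In a tournament with a good colouring there are fewer than `3 ^ k` vertices. -/
lemma card_lt [Finite V] (hk : 1 ≤ k) (hT : D.IsTournament) (h : IsGood fam D c) :
    Nat.card V < 3 ^ k := by
  classical
  have hinj : Function.Injective (lev D c) := by
    intro u v huv
    by_contra hne
    exact lev_ne h (hT u v hne) huv
  have hcard : Nat.card (Fin k → Fin 3) = 3 ^ k := by simp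
  have hle : Nat.card V ≤ Nat.card (Fin k → Fin 3) := Nat.card_le_card_of_injective _ hinj
  rw [hcard] at hle
  refine lt_of_le_of_ne hle ?_
  intro heq
  have hsurj : Function.Surjective (lev D c) := by
    have := Fintype.ofFinite V
    exact ((Fintype.bijective_iff_injective_and_card (lev D c)).2
      ⟨hinj, by rw [← Nat.card_eq_fintype_card, ← Nat.card_eq_fintype_card, hcard, heq]⟩).2
  let j0 : Fin k := ⟨0, hk⟩
  have hx : ∀ i : Fin 3, ∃ v : V, lev D c v = Function.update (fun _ => 0) j0 i :=
    fun i => hsurj _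
  choose x hx using hx
  -- arcs between the three vertices have colour `j0` and go down
  have key : ∀ i i' : Fin 3, i < i' → Cls D c j0 (x i') (x i) := by
    intro i i' hii
    have hne : x i' ≠ x i := by
      intro e
      have := hx i'
      rw [e, hx i] at this
      have h2 := congrFun this j0
      simp only [Function.update_self] at h2
      exact (ne_of_lt hii) h2
    rcases hT _ _ hne with ha | ha
    · have hl := level_lt h (c (x i') (x i)) (v := x i') (u := x i) ⟨ha, rfl⟩
      by_cases hj : c (x i') (x i) = j0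
      · exact ⟨ha, hj⟩
      · exfalso
        have e1 := congrFun (hx i') (c (x i') (x i))
        have e2 := congrFun (hx i) (c (x i') (x i))
        rw [Function.update_of_ne hj] at e1 e2
        simp only [lev] at e1 e2
        rw [e1, e2] at hl
        exact lt_irrefl _ hl
    · exfalso
      have hl := level_lt h (c (x i) (x i')) (v := x i) (u := x i') ⟨ha, rfl⟩
      by_cases hj : c (x i) (x i') = j0
      · rw [hj] at hl
        have e1 := congrFun (hx i') j0
        have e2 := congrFun (hx i) j0
        simp only [Function.update_self, lev] at e1 e2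
        rw [e1, e2] at hl
        exact lt_asymm hl hii
      · have e1 := congrFun (hx i') (c (x i) (x i'))
        have e2 := congrFun (hx i) (c (x i) (x i'))
        rw [Function.update_of_ne hj] at e1 e2
        simp only [lev] at e1 e2
        rw [e1, e2] at hl
        exact lt_irrefl _ hl
  have hxinj : Function.Injective x := by
    intro a b hab
    have h1 := hx a
    rw [hab, hx b] at h1
    have h2 := congrFun h1 j0
    simp only [Function.update_self] at h2
    exact h2.symm
  refine h j0 ⟨3, transTriangle⟩ (by simp [fam]) ⟨fun a => x (Fin.rev a), ?_, ?_⟩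
  · intro a b hab
    exact Fin.rev_injective (hxinj hab)
  · intro a b hab
    have hab' : a < b := hab
    exact key _ _ (Fin.rev_lt_rev.2 hab')

end Levels

/-! ### The lower bound for `q_k` -/

section Lower

variable (k M : ℕ)

/-- adjacency of the shift graph on pairs -/
def sadj {M : ℕ} (p q : Fin M × Fin M) : Prop :=
  p.1 < p.2 ∧ q.1 < q.2 ∧ (p.2 = q.1 ∨ q.2 = p.1)

lemma sadj_symm {M : ℕ} {p q : Fin M × Fin M} (h : sadj p q) : sadj q p :=
  ⟨h.2.1, h.1, h.2.2.symm⟩

lemma sadj_triangle {M : ℕ} {p q r : Fin M × Fin M} (h1 : sadj p q) (h2 : sadj q r)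
    (h3 : sadj r p) : False := by
  obtain ⟨p1, p2⟩ := p
  obtain ⟨q1, q2⟩ := q
  obtain ⟨r1, r2⟩ := r
  simp only [sadj, Fin.lt_def, Fin.ext_iff] at h1 h2 h3
  omega

/-- `j` is the first coordinate at which `x` and `y` differ -/
def fdiff {k : ℕ} (x y : Fin k → Fin 3) (j : Fin k) : Prop :=
  (∀ i, i < j → x i = y i) ∧ x j ≠ y j

lemma fdiff_unique {k : ℕ} {x y : Fin k → Fin 3} {j j' : Fin k} (h : fdiff x y j)
    (h' : fdiff x y j') : j = j' := by
  rcases lt_trichotomy j j' with hl | hl | hl
  · exact (h.2 (h'.1 j hl)).elim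
  · exact hl
  · exact (h'.2 (h.1 j' hl)).elim

lemma fdiff_symm {k : ℕ} {x y : Fin k → Fin 3} {j : Fin k} (h : fdiff x y j) :
    fdiff y x j := ⟨fun i hi => (h.1 i hi).symm, fun e => h.2 e.symm⟩

lemma fdiff_exists {k : ℕ} {x y : Fin k → Fin 3} (h : x ≠ y) : ∃ j, fdiff x y j := by
  classical
  have hne : (Finset.univ.filter (fun j => x j ≠ y j)).Nonempty := by
    obtain ⟨j, hj⟩ := Function.ne_iff.1 h
    exact ⟨j, by simpa using hj⟩
  refine ⟨Finset.min' _ hne, ?_, ?_⟩
  · intro i hi
    by_contra hc
    have : i ∈ Finset.univ.filter (fun j => x j ≠ y j) := by simpa using hc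
    exact absurd (Finset.min'_le _ _ this) (not_le.2 hi)
  · have := Finset.min'_mem _ hne
    simpa using this

/-- the oriented graph with large chromatic number -/
def bigD : OGraph ((Fin k → Fin 3) × (Fin M × Fin M)) where
  arc a b := sadj a.2 b.2 ∧ ∃ j, fdiff a.1 b.1 j ∧ b.1 j < a.1 j
  asymm := by
    rintro a b ⟨_, j, hj, hlt⟩ ⟨_, j', hj', hlt'⟩
    have := fdiff_unique hj (fdiff_symm hj')
    subst this
    exact lt_asymm hlt hlt'

open Classical in
/-- colour of an arc: the first coordinate at which the endpoints differ -/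
noncomputable def bigC (hk : 1 ≤ k) (a b : (Fin k → Fin 3) × (Fin M × Fin M)) : Fin k :=
  if h : ∃ j, fdiff a.1 b.1 j then Classical.choose h else ⟨0, hk⟩

lemma bigC_lt (hk : 1 ≤ k) {a b : (Fin k → Fin 3) × (Fin M × Fin M)} {j : Fin k}
    (h : (bigD k M).arc a b ∧ bigC k M hk a b = j) : b.1 j < a.1 j := by
  obtain ⟨⟨_, j', hj', hlt⟩, hc⟩ := h
  have hex : ∃ j, fdiff a.1 b.1 j := ⟨j', hj'⟩
  have h2 : bigC k M hk a b = Classical.choose hex := by
    unfold bigC
    rw [dif_pos hex]
  have h3 := Classical.choose_spec hex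
  rw [← h2, hc] at h3
  have := fdiff_unique hj' h3
  subst this
  exact hlt

lemma bigD_good (hk : 1 ≤ k) : IsGood fam (bigD k M) (bigC k M hk) := by
  intro j F hF
  rintro ⟨φ, hφ, hcopy⟩
  simp only [fam, Set.mem_insert_iff, Set.mem_singleton_iff] at hF
  rcases hF with rfl | rfl | rfl
  · have h1 := bigC_lt k M hk (hcopy (0 : Fin 4) (1 : Fin 4) rfl)
    have h2 := bigC_lt k M hk (hcopy (1 : Fin 4) (2 : Fin 4) rfl)
    have h3 := bigC_lt k M hk (hcopy (2 : Fin 4) (3 : Fin 4) rfl)
    simp only [Fin.lt_def] at h1 h2 h3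
    have := ((φ (0 : Fin 4)).1 j).isLt
    omega
  · have h1 := (hcopy (0 : Fin 3) (1 : Fin 3) (by decide : (0 : Fin 3) < 1)).1.1
    have h2 := (hcopy (1 : Fin 3) (2 : Fin 3) (by decide : (1 : Fin 3) < 2)).1.1
    have h3 := (hcopy (0 : Fin 3) (2 : Fin 3) (by decide : (0 : Fin 3) < 2)).1.1
    exact sadj_triangle h1 h2 (sadj_symm h3)
  · have h1 := (hcopy (0 : Fin 3) (1 : Fin 3) (by decide : (1 : Fin 3) = 0 + 1)).1.1
    have h2 := (hcopy (1 : Fin 3) (2 : Fin 3) (by decide : (2 : Fin 3) = 1 + 1)).1.1
    have h3 := (hcopy (2 : Fin 3) (0 : Fin 3) (by decide : (0 : Fin 3) = 2 + 1)).1.1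
    exact sadj_triangle h1 h2 h3

/-- A proper colouring of the shift graph on `Fin M` with a finite colour type `α` forces
`M ≤ 2 ^ |α|`. -/
lemma shift_bound {M : ℕ} {α : Type} [Fintype α] (f : Fin M × Fin M → α)
    (hf : ∀ p q, sadj p q → f p ≠ f q) : M ≤ 2 ^ Fintype.card α := by
  classical
  let S : Fin M → Finset α := fun a =>
    (Finset.univ.filter (fun b => a < b)).image (fun b => f (a, b))
  have hS : Function.Injective S := by
    intro a b hab
    by_contra hne
    wlog hlt : a < b generalizing a b with H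
    · exact H hab.symm (fun e => hne e.symm) (lt_of_le_of_ne (not_lt.1 hlt) (fun e => hne e.symm))
    have h1 : f (a, b) ∈ S a := by
      simp only [S, Finset.mem_image, Finset.mem_filter, Finset.mem_univ, true_and]
      exact ⟨b, hlt, rfl⟩
    rw [hab] at h1
    simp only [S, Finset.mem_image, Finset.mem_filter, Finset.mem_univ, true_and] at h1
    obtain ⟨d, hbd, hd⟩ := h1
    exact hf (a, b) (b, d) ⟨hlt, hbd, Or.inl rfl⟩ hd.symm
  have := Fintype.card_le_of_injective S hS
  simpa using this

lemma bigD_chromatic : ∃ M : ℕ, (3 ^ k : ℕ) ≤ (bigD k M).under.chromaticNumber := by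
  classical
  let N := 3 ^ k
  refine ⟨2 ^ (N * N * N) + 1, ?_⟩
  set M := 2 ^ (N * N * N) + 1 with hM
  rw [SimpleGraph.le_chromaticNumber_iff_colorable]
  rintro m ⟨C⟩
  by_contra hlt
  rw [not_le] at hlt
  -- pigeonhole in each fibre
  have hp : ∀ h : Fin M × Fin M, ∃ x y : Fin k → Fin 3, x ≠ y ∧ C (x, h) = C (y, h) := by
    intro h
    have hcard : Fintype.card (Fin m) < Fintype.card (Fin k → Fin 3) := by simpa using hlt
    obtain ⟨x, y, hxy, he⟩ := Fintype.exists_ne_map_eq_of_card_lt (fun x => C (x, h)) hcard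
    exact ⟨x, y, hxy, he⟩
  choose x y hxy he using hp
  let f : Fin M × Fin M → (Fin k → Fin 3) × (Fin k → Fin 3) × Fin m :=
    fun h => (x h, y h, C (x h, h))
  have hf : ∀ p q, sadj p q → f p ≠ f q := by
    intro p q hpq hfe
    simp only [f, Prod.mk.injEq] at hfe
    obtain ⟨h1, h2, h3⟩ := hfe
    -- `(x p, p)` and `(y q, q)` are adjacent and have the same colour
    have hne : x p ≠ y q := by rw [h1]; exact hxy q
    have hadj : (bigD k M).under.Adj (x p, p) (y q, q) := by
      obtain ⟨j, hj⟩ := fdiff_exists hne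
      rcases lt_or_gt_of_ne hj.2 with hl | hl
      · exact Or.inr ⟨sadj_symm hpq, j, fdiff_symm hj, hl⟩
      · exact Or.inl ⟨hpq, j, hj, hl⟩
    apply C.valid hadj
    rw [h3, he q]
  have hb := shift_bound f hf
  have hc : Fintype.card ((Fin k → Fin 3) × (Fin k → Fin 3) × Fin m) ≤ N * N * N := by
    simp only [Fintype.card_prod, Fintype.card_fin, Fintype.card_pi, Finset.prod_const,
      Finset.card_univ]
    have : 3 ^ k * (3 ^ k * m) = N * N * m := by simp only [N]; ring
    rw [this]
    exact Nat.mul_le_mul_left _ (le_of_lt hlt)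
  have h2 : 2 ^ Fintype.card ((Fin k → Fin 3) × (Fin k → Fin 3) × Fin m) ≤ 2 ^ (N * N * N) :=
    Nat.pow_le_pow_right (by norm_num) hc
  omega

end Lower

/-! ### The directed path is a forest -/

lemma dirPath4_under : dirPath4.under = SimpleGraph.pathGraph 4 := by
  ext a b
  rw [SimpleGraph.pathGraph_adj]
  constructor
  · rintro (h | h)
    · exact Or.inl h.symm
    · exact Or.inr h.symm
  · rintro (h | h)
    · exact Or.inl h.symm
    · exact Or.inr h.symm

lemma card_edges : Nat.card (SimpleGraph.pathGraph 4).edgeSet = 3 := by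
  have h : (SimpleGraph.pathGraph 4).edgeSet = {s(0, 1), s(1, 2), s(2, 3)} := by
    ext e
    induction e with
    | _ a b =>
      rw [SimpleGraph.mem_edgeSet, SimpleGraph.pathGraph_adj]
      revert a b
      decide
  rw [h]
  have h2 : ({s(0, 1), s(1, 2), s(2, 3)} : Set (Sym2 (Fin 4))) =
      (({s(0, 1), s(1, 2), s(2, 3)} : Finset (Sym2 (Fin 4))) : Set (Sym2 (Fin 4))) := by
    simp
  rw [h2, Nat.card_coe_set_eq, Set.ncard_coe_finset]
  decide

lemma dirPath4_forest : dirPath4.IsForest := by
  unfold OGraph.IsForest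
  rw [dirPath4_under]
  have : (SimpleGraph.pathGraph 4).IsTree := by
    rw [SimpleGraph.isTree_iff_connected_and_card]
    refine ⟨SimpleGraph.pathGraph_connected 3, ?_⟩
    rw [card_edges]
    simp
  exact this.2

/-- Main theorem. -/
theorem main :
    fam.Finite ∧ (∃ F ∈ fam, F.2.IsForest) ∧
      ∀ k : ℕ, 1 ≤ k → pNum fam k < qNum fam k ∧ qNum fam k = 3 ^ k := by
  refine ⟨?_, ⟨⟨4, dirPath4⟩, by simp [fam], dirPath4_forest⟩, ?_⟩
  · unfold fam
    exact Set.toFinite _
  · intro k hk
    have hq : qNum fam k = 3 ^ k := by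
      apply le_antisymm
      · apply sSup_le
        rintro _ ⟨V, _, D, ⟨c, hc⟩, rfl⟩
        have := (colorable hc).chromaticNumber_le
        simpa using this
      · obtain ⟨M, hM⟩ := bigD_chromatic k
        have hle : (bigD k M).under.chromaticNumber ≤ qNum fam k :=
          le_sSup ⟨_, inferInstance, bigD k M, ⟨bigC k M hk, bigD_good k M hk⟩, rfl⟩
        refine le_trans ?_ hle
        simpa using hM
    refine ⟨?_, hq⟩
    rw [hq]
    have hp : pNum fam k ≤ ((3 ^ k - 1 : ℕ) : ℕ∞) := by
      apply sSup_le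
      rintro _ ⟨V, _, D, hT, ⟨c, hc⟩, rfl⟩
      have := card_lt hk hT hc
      exact_mod_cast Nat.le_sub_one_of_lt this
    refine lt_of_le_of_lt hp ?_
    have h3 : 3 ^ k - 1 < 3 ^ k := Nat.sub_lt (by positivity) (by norm_num)
    exact_mod_cast h3

end Pool.Agent.Lib.MP_abf784_co
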